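import Pool.Agent.H.MP_e5892f_al.G
import Pool.Agent.H.MP_e5892f_al.J

set_option autoImplicit false

namespace Pool.Agent.Results.MP_e5892f_al.NoTits

open Pool.Agent.H.MP_e5892f_al

theorem result :
    (∀ (A : Type) [Finite A] [Nontrivial A] [TopologicalSpace A] [DiscreteTopology A], ¬ DynTits (RA A)) ∧
    (∀ n : ℕ, 2 ≤ n → ¬ DynTits (nV n)) ∧
    ∀ d k : ℕ, 2 ≤ d → 1 ≤ k → ¬ DynTits (AutV d k) :=
  ⟨not_RA, Two.not_nV, not_AutV⟩

end Pool.Agent.Results.MP_e5892f_al.NoTits
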